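import Mathlib

/-!
# MP_decea1_gt (S14098), shared definitions for blocks A - F.

Texts: /team-store/MP_decea1_QM_AB.md, MP_decea1_QM_C.md, MP_decea1_QM_DEF.md (helper59).
-/

set_option autoImplicit false

open MeasureTheory Set

namespace Pool.Agent.QM59

/-- the model space, with the sup norm and Lebesgue measure -/
abbrev E3 : Type := Fin 3 → ℝ

/-- smoothness index -/
abbrev smo : WithTop ℕ∞ := ((⊤ : ℕ∞) : WithTop ℕ∞)

/-- open box -/
def Box (a b : E3) : Set E3 := {x | ∀ i, a i < x i ∧ x i < b i}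

/-- the open unit cube -/
def Cube : Set E3 := Box 0 1

/-- smooth bijections with smooth inverse -/
def IsDif (f : Equiv.Perm E3) : Prop :=
  ContDiff ℝ smo (fun x => f x) ∧ ContDiff ℝ smo (fun x => f.symm x)

/-- Jacobian determinant -/
noncomputable def jac (f : E3 → E3) (x : E3) : ℝ := (fderiv ℝ f x).det

/-- volume (and orientation) preserving -/
def Vol (f : Equiv.Perm E3) : Prop := ∀ x, jac (fun y => f y) x = 1

/-- `f` is the identity off `K` -/
def IdOff (K : Set E3) (f : Equiv.Perm E3) : Prop := ∀ x, x ∉ K → f x = x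

/-- smooth families of diffeomorphisms with a common compact support in `U` -/
structure Fam (U : Set E3) (F : ℝ → Equiv.Perm E3) : Prop where
  smooth : ContDiff ℝ smo (fun p : ℝ × E3 => F p.1 p.2)
  smooth_inv : ContDiff ℝ smo (fun p : ℝ × E3 => (F p.1).symm p.2)
  supp : ∃ K : Set E3, K ⊆ U ∧ IsCompact K ∧ ∀ s, IdOff K (F s)

/-- isotopies with compact support in `U`, constant for `s ≤ 0` and for `1 ≤ s` -/
structure IsIso (U : Set E3) (F : ℝ → Equiv.Perm E3) : Prop extends Fam U F where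
  left : ∀ s : ℝ, s ≤ 0 → F s = 1
  right : ∀ s : ℝ, 1 ≤ s → F s = F 1

/-- end points of isotopies (a subgroup of `Equiv.Perm E3`, see block A) -/
def InIso (U : Set E3) (f : Equiv.Perm E3) : Prop := ∃ F : ℝ → Equiv.Perm E3, IsIso U F ∧ F 1 = f

/-- the groups to which Theorem M applies -/
structure Good (Γ : Subgroup (Equiv.Perm E3)) : Prop where
  dif : ∀ f ∈ Γ, IsDif f
  vol : ∀ f ∈ Γ, Vol f
  supp : ∀ f ∈ Γ, ∃ K : Set E3, K ⊆ Cube ∧ IsCompact K ∧ IdOff K f
  iso : ∀ f, InIso Cube f → Vol f → f ∈ Γ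

/-- homogeneous quasimorphisms on `Γ` with defect at most `D` -/
structure HQ {G : Type*} [Group G] (Γ : Subgroup G) (φ : G → ℝ) (D : ℝ) : Prop where
  nonneg : 0 ≤ D
  bdd : ∀ f ∈ Γ, ∀ g ∈ Γ, |φ (f * g) - φ f - φ g| ≤ D
  hom : ∀ f ∈ Γ, ∀ n : ℤ, φ (f ^ n) = n * φ f

/-- the coboundary -/
def dphi {G : Type*} [Group G] (φ : G → ℝ) (f g : G) : ℝ := φ (f * g) - φ f - φ g

/-- the defect of `φ` on the elements of `Γ` supported in `K` is at most `c` -/
def DB (Γ : Subgroup (Equiv.Perm E3)) (φ : Equiv.Perm E3 → ℝ) (K : Set E3) (c : ℝ) : Prop :=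
  ∀ f ∈ Γ, ∀ g ∈ Γ, IdOff K f → IdOff K g → |dphi φ f g| ≤ c

/-- `s = T` off a set `K` which is closed in the cube and of measure `< v` -/
def App (s : Equiv.Perm E3) (T : E3 → E3) (v : ℝ) : Prop :=
  ∃ K : Set E3, IsClosed K ∧ volume (K ∩ Cube) < ENNReal.ofReal v ∧
    ∀ x ∈ Cube, x ∉ K → s x = T x

/-- the homothety `x ↦ p + r x` -/
noncomputable def homoth (p : E3) (r : ℝ) (hr : r ≠ 0) : Equiv.Perm E3 where
  toFun x := p + r • x
  invFun x := r⁻¹ • (x - p)
  left_inv x := by simp [smul_smul, inv_mul_cancel₀ hr]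
  right_inv x := by simp [smul_smul, mul_inv_cancel₀ hr]

end Pool.Agent.QM59
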