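import Mathlib
import Pool.Agent.Lib.MP_decea1_gt_Q0.Defs

/-!
# MP_decea1_gt (S14098): block theorems of B and C (targets; the proofs will live in the block folders).
This file is only a reference for the architects: do not import it in final files.
-/

set_option autoImplicit false

open MeasureTheory Set

namespace Pool.Agent.QM59.Targets

variable (Γ : Subgroup (Equiv.Perm E3)) (φ : Equiv.Perm E3 → ℝ) (D : ℝ)

/-- Block A, near-identity lemma. -/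
theorem A1 (U : Set E3) (hU : IsOpen U) (u : E3 → E3) (hu : ContDiff ℝ smo u)
    (K : Set E3) (hK : IsCompact K) (hKU : K ⊆ U) (h0 : ∀ x, x ∉ K → u x = 0)
    (hD : ∀ x, ‖fderiv ℝ u x‖ ≤ 1 / 2) :
    ∃ f : Equiv.Perm E3, InIso U f ∧ ∀ x, f x = x + u x := by sorry

/-- Block A, Moser lemma with a parameter. -/
theorem A3 (U : Set E3) (hU : IsOpen U) (hc : IsConnected U) (K : Set E3) (hK : IsCompact K)
    (hKU : K ⊆ U) (J J' : ℝ × E3 → ℝ) (hJ : ContDiff ℝ smo J) (hJ' : ContDiff ℝ smo J')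
    (ι : ℝ) (hι : 0 < ι) (h1 : ∀ p, ι ≤ J p) (h2 : ∀ p, ι ≤ J' p)
    (h3 : ∀ s x, x ∉ K → J (s, x) = J' (s, x)) (C : ℝ) (h4 : ∀ p, |J p - J' p| ≤ C)
    (h5 : ∀ s, ∫ x, (J (s, x) - J' (s, x)) = 0) :
    ∃ m : ℝ → Equiv.Perm E3, Fam U m ∧
      (∀ s x, J (s, m s x) * jac (fun y => m s y) x = J' (s, x)) ∧
      ∀ s, (∀ x, J (s, x) = J' (s, x)) → m s = 1 := by sorry

/-- Block A, Moser lemma without parameter. -/
theorem A3' (U : Set E3) (hU : IsOpen U) (hc : IsConnected U) (K : Set E3) (hK : IsCompact K)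
    (hKU : K ⊆ U) (J J' : E3 → ℝ) (hJ : ContDiff ℝ smo J) (hJ' : ContDiff ℝ smo J')
    (ι : ℝ) (hι : 0 < ι) (h1 : ∀ p, ι ≤ J p) (h2 : ∀ p, ι ≤ J' p)
    (h3 : ∀ x, x ∉ K → J x = J' x) (h5 : ∫ x, (J x - J' x) = 0) :
    ∃ m : Equiv.Perm E3, InIso U m ∧ ∀ x, J (m x) * jac (fun y => m y) x = J' x := by sorry

/-- Block A, MOS (general domain `U`, finitely many complementary pieces). -/
theorem A4 (U : Set E3) (hU : IsOpen U) (K : Set E3) (hK : IsCompact K) (hKU : K ⊆ U) (r : ℕ)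
    (V : Fin r → Set E3) (hV : ∀ i, IsOpen (V i)) (hVc : ∀ i, IsConnected (V i))
    (hd : Pairwise fun i j => Disjoint (V i) (V j)) (hUV : U \ K = ⋃ i, V i)
    (F : Equiv.Perm E3) (hF : InIso U F) (W : Set E3) (hW : IsOpen W) (hKW : K ⊆ W)
    (h1 : ∀ x ∈ W, jac (fun y => F y) x = 1)
    (h0 : ∀ i, ∫ x in V i, (jac (fun y => F y) x - 1) = 0) :
    ∃ g : Equiv.Perm E3, InIso U g ∧ Vol g ∧ ∃ W' : Set E3, IsOpen W' ∧ K ⊆ W' ∧
      ∀ x ∈ W', g x = F x := by sorry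

/-- Block A, ISO. -/
theorem A5 (F : ℝ → Equiv.Perm E3) (hF : IsIso Cube F) (h1 : Vol (F 1)) :
    ∃ F' : ℝ → Equiv.Perm E3, IsIso Cube F' ∧ F' 1 = F 1 ∧ ∀ s, Vol (F' s) := by sorry

/-- Block B, wall lemma. -/
theorem wall (hΓ : Good Γ) (hφ : HQ Γ φ D) : ∀ ε : ℝ, 0 < ε → ∃ η : ℝ, 0 < η ∧
    ∀ K : Set E3, K ⊆ Cube → IsCompact K → volume K < ENNReal.ofReal η → DB Γ φ K ε := by sorry

/-- Block B, almost additivity. -/
theorem NA (hΓ : Good Γ) (hφ : HQ Γ φ D) : ∀ ε : ℝ, 0 < ε → ∃ v : ℝ, 0 < v ∧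
    ∀ x ∈ Γ, ∀ u ∈ Γ, ∀ K : Set E3, K ⊆ Cube → IsCompact K → volume K < ENNReal.ofReal v →
      IdOff K u → |φ (x * u) - φ x - φ u| ≤ ε := by sorry

/-- Block B, uniform continuity of the coboundary. -/
theorem NAc (hΓ : Good Γ) (hφ : HQ Γ φ D) : ∀ ε : ℝ, 0 < ε → ∃ v : ℝ, 0 < v ∧
    ∀ x ∈ Γ, ∀ y ∈ Γ, ∀ u ∈ Γ, ∀ w ∈ Γ, ∀ K : Set E3, K ⊆ Cube → IsCompact K →
      volume K < ENNReal.ofReal v → IdOff K u → IdOff K w →
        |dphi φ (x * u) (y * w) - dphi φ x y| ≤ ε := by sorry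

/-- Block C, local lemma. -/
theorem LL : ∃ (k m : ℕ) (ε R : ℝ), 0 < ε ∧ 1 ≤ R ∧ ∀ f : Equiv.Perm E3, IsDif f → Vol f →
    IdOff (Metric.closedBall 0 1) f →
    (∀ i ≤ k, ∀ x, ‖iteratedFDeriv ℝ i (fun y => f y - y) x‖ ≤ ε) →
    ∃ a b : Fin m → Equiv.Perm E3,
      (∀ i, InIso (Metric.ball 0 R) (a i) ∧ Vol (a i) ∧
        InIso (Metric.ball 0 R) (b i) ∧ Vol (b i)) ∧
      f = (List.ofFn fun i => a i * b i * (a i)⁻¹ * (b i)⁻¹).prod := by sorry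

end Pool.Agent.QM59.Targets
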